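import Pool.Agent.W314.BA.Stm

set_option autoImplicit false

/-!
BA-CC: cocompactness of the norm one units of a quaternion order.
-/

open MeasureTheory Set Filter Topology Real
open scoped ENNReal NNReal

namespace Pool.Agent.W337.BA.CC

open Pool.Agent.W314.BA

lemma three_dvd {c d : ℤ} (h : (3 : ℤ) ∣ c ^ 2 + d ^ 2) : (3 : ℤ) ∣ c ∧ (3 : ℤ) ∣ d := by
  have h1 : (c ^ 2 + d ^ 2) % 3 = 0 := Int.emod_eq_zero_of_dvd h
  have hc : c % 3 = 0 ∨ c % 3 = 1 ∨ c % 3 = 2 := by omega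
  have hd : d % 3 = 0 ∨ d % 3 = 1 ∨ d % 3 = 2 := by omega
  rcases hc with hc | hc | hc <;> rcases hd with hd | hd | hd <;>
    simp [pow_two, Int.add_emod, Int.mul_emod, hc, hd] at h1 <;>
    exact ⟨Int.dvd_of_emod_eq_zero hc, Int.dvd_of_emod_eq_zero hd⟩

lemma descent (N : ℕ) : ∀ u v w z : ℤ, u ^ 2 + v ^ 2 + w ^ 2 + z ^ 2 ≤ N →
    u ^ 2 + v ^ 2 = 3 * (w ^ 2 + z ^ 2) → u = 0 ∧ v = 0 ∧ w = 0 ∧ z = 0 := by
  induction N with
  | zero =>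
    intro u v w z h _
    have h1 := sq_nonneg u
    have h2 := sq_nonneg v
    have h3 := sq_nonneg w
    have h4 := sq_nonneg z
    rw [Nat.cast_zero] at h
    refine ⟨?_, ?_, ?_, ?_⟩ <;> refine pow_eq_zero_iff (two_ne_zero) |>.1 ?_ <;> linarith
  | succ N ih =>
    intro u v w z h h5
    have h1 := sq_nonneg u
    have h2 := sq_nonneg v
    have h3 := sq_nonneg w
    have h4 := sq_nonneg z
    obtain ⟨⟨u', hu⟩, ⟨v', hv⟩⟩ := three_dvd (c := u) (d := v) ⟨_, h5⟩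
    have h6 : w ^ 2 + z ^ 2 = 3 * (u' ^ 2 + v' ^ 2) := by
      rw [hu, hv] at h5
      linarith
    by_cases h0 : w ^ 2 + z ^ 2 = 0
    · have hw : w ^ 2 = 0 := by linarith
      have hz : z ^ 2 = 0 := by linarith
      have hu2 : u ^ 2 = 0 := by linarith
      have hv2 : v ^ 2 = 0 := by linarith
      exact ⟨by simpa using hu2, by simpa using hv2, by simpa using hw, by simpa using hz⟩
    · have h7 : 0 < w ^ 2 + z ^ 2 := lt_of_le_of_ne (by linarith) (Ne.symm h0)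
      have h8 : w ^ 2 + z ^ 2 + u' ^ 2 + v' ^ 2 ≤ N := by
        push_cast at h
        nlinarith
      obtain ⟨h9, h10, h11, h12⟩ := ih w z u' v' h8 h6
      refine ⟨by rw [hu, h11, mul_zero], by rw [hv, h12, mul_zero], h9, h10⟩

lemma nrd_ne {a b c d : ℤ} (h : a ≠ 0 ∨ b ≠ 0 ∨ c ≠ 0 ∨ d ≠ 0) :
    a ^ 2 + 9 * b ^ 2 - 3 * c ^ 2 - 3 * d ^ 2 ≠ 0 := by
  intro h0
  have h1 : (3 : ℤ) ∣ a ^ 2 := ⟨c ^ 2 + d ^ 2 - 3 * b ^ 2, by linarith⟩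
  obtain ⟨a', ha⟩ := Int.prime_three.dvd_of_dvd_pow h1
  have h2 : c ^ 2 + d ^ 2 = 3 * (a' ^ 2 + b ^ 2) := by
    rw [ha] at h0
    linarith
  have h3 : 0 ≤ c ^ 2 + d ^ 2 + a' ^ 2 + b ^ 2 := by positivity
  obtain ⟨h4, h5, h6, h7⟩ := descent (c ^ 2 + d ^ 2 + a' ^ 2 + b ^ 2).toNat c d a' b
    (by rw [Int.toNat_of_nonneg h3]) h2
  rcases h with h | h | h | h
  · apply h; rw [ha, h6, mul_zero]
  · exact h h7
  · exact h h4
  · exact h h5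

/-- the squared norm of `g * Mat(a,b,c,d)` -/
noncomputable def FN (g : G) (a b c d : ℤ) : ℝ :=
  (g.1 0 0 * (a + c * √3) + g.1 0 1 * (-3 * b + d * √3)) ^ 2 +
  (g.1 0 0 * (3 * b + d * √3) + g.1 0 1 * (a - c * √3)) ^ 2 +
  (g.1 1 0 * (a + c * √3) + g.1 1 1 * (-3 * b + d * √3)) ^ 2 +
  (g.1 1 0 * (3 * b + d * √3) + g.1 1 1 * (a - c * √3)) ^ 2

lemma det_eq (g : G) : g.1 0 0 * g.1 1 1 - g.1 0 1 * g.1 1 0 = 1 := by
  have h := g.2
  rwa [Matrix.det_fin_two] at h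

lemma mul_entry (g h : G) (i j : Fin 2) :
    (g * h).1 i j = g.1 i 0 * h.1 0 j + g.1 i 1 * h.1 1 j := by
  show (g.1 * h.1) i j = _
  rw [Matrix.mul_apply, Fin.sum_univ_two]

lemma s3 : (√3 : ℝ) ^ 2 = 3 := Real.sq_sqrt (by norm_num)

lemma nrd_le (g : G) (a b c d : ℤ) :
    2 * |((a ^ 2 + 9 * b ^ 2 - 3 * c ^ 2 - 3 * d ^ 2 : ℤ) : ℝ)| ≤ FN g a b c d := by
  have h1 := det_eq g
  have h2 := s3
  set p := g.1 0 0
  set q := g.1 0 1
  set r := g.1 1 0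
  set t := g.1 1 1
  set s : ℝ := √3
  have h3 : ((a ^ 2 + 9 * b ^ 2 - 3 * c ^ 2 - 3 * d ^ 2 : ℤ) : ℝ) =
      (p * (a + c * s) + q * (-3 * b + d * s)) * (r * (3 * b + d * s) + t * (a - c * s)) -
      (p * (3 * b + d * s) + q * (a - c * s)) * (r * (a + c * s) + t * (-3 * b + d * s)) := by
    push_cast
    have h4 : (p * (a + c * s) + q * (-3 * b + d * s)) * (r * (3 * b + d * s) + t * (a - c * s)) -
      (p * (3 * b + d * s) + q * (a - c * s)) * (r * (a + c * s) + t * (-3 * b + d * s)) =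
      (p * t - q * r) * ((a : ℝ) ^ 2 + 9 * (b : ℝ) ^ 2 - s ^ 2 * (c : ℝ) ^ 2 - s ^ 2 * (d : ℝ) ^ 2) := by
      ring
    rw [h4, h1, h2]
    ring
  rw [h3]
  have h5 : FN g a b c d = (p * (a + c * s) + q * (-3 * b + d * s)) ^ 2 +
      (p * (3 * b + d * s) + q * (a - c * s)) ^ 2 + (r * (a + c * s) + t * (-3 * b + d * s)) ^ 2 +
      (r * (3 * b + d * s) + t * (a - c * s)) ^ 2 := rfl
  rw [h5]
  generalize (p * (a + c * s) + q * (-3 * b + d * s)) = A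
  generalize (p * (3 * b + d * s) + q * (a - c * s)) = B
  generalize (r * (a + c * s) + t * (-3 * b + d * s)) = C
  generalize (r * (3 * b + d * s) + t * (a - c * s)) = D
  have h6 : |A * D - B * C| ≤ (A ^ 2 + B ^ 2 + C ^ 2 + D ^ 2) / 2 := by
    rw [abs_le]
    constructor
    · nlinarith [sq_nonneg (A + D), sq_nonneg (B - C)]
    · nlinarith [sq_nonneg (A - D), sq_nonneg (B + C)]
  linarith

lemma fin {n2 S1 S2 P1 P2 P3 P4 K R : ℝ} (h1 : n2 * S1 ≤ (P1 + P2) * K)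
    (h2 : n2 * S2 ≤ (P3 + P4) * K) (hF : P1 + P2 + P3 + P4 ≤ R) (hK : 0 ≤ K) (hn : 1 ≤ n2)
    (hS1 : 0 ≤ S1) (hS2 : 0 ≤ S2) : S1 + S2 ≤ R * K := by
  have h3 := mul_le_mul_of_nonneg_right hF hK
  nlinarith

lemma row {n A B C D a b c d a0 b0 c0 d0 s : ℝ} (hs : s ^ 2 = 3)
    (nA' : n * A = a * a0 + 9 * b * b0 - 3 * c * c0 - 3 * d * d0)
    (nB' : n * B = -a * b0 + b * a0 - c * d0 + d * c0)
    (nC' : n * C = -a * c0 + c * a0 - 3 * b * d0 + 3 * d * b0)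
    (nD' : n * D = -a * d0 + d * a0 + 3 * b * c0 - 3 * c * b0) (p q : ℝ) :
    n ^ 2 * ((p * (A + C * s) + q * (-3 * B + D * s)) ^ 2 +
        (p * (3 * B + D * s) + q * (A - C * s)) ^ 2) ≤
        ((p * (a + c * s) + q * (-3 * b + d * s)) ^ 2 + (p * (3 * b + d * s) + q * (a - c * s)) ^ 2) *
        ((a0 - c0 * s) ^ 2 + (3 * b0 - d0 * s) ^ 2 + (3 * b0 + d0 * s) ^ 2 + (a0 + c0 * s) ^ 2) := by
  have f0 : n * (p * (A + C * s) + q * (-3 * B + D * s)) =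
      (p * (a + c * s) + q * (-3 * b + d * s)) * (a0 - c0 * s) +
      (p * (3 * b + d * s) + q * (a - c * s)) * (3 * b0 - d0 * s) := by
    linear_combination p * nA' + p * s * nC' - 3 * q * nB' + q * s * nD' +
      (p * (c * c0 + d * d0) - q * (c * d0 - d * c0)) * hs
  have f1 : n * (p * (3 * B + D * s) + q * (A - C * s)) =
      (p * (a + c * s) + q * (-3 * b + d * s)) * (-(3 * b0 + d0 * s)) +
      (p * (3 * b + d * s) + q * (a - c * s)) * (a0 + c0 * s) := by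
    linear_combination 3 * p * nB' + p * s * nD' + q * nA' - q * s * nC' +
      (p * (c * d0 - d * c0) + q * (c * c0 + d * d0)) * hs
  have f2 : n ^ 2 * ((p * (A + C * s) + q * (-3 * B + D * s)) ^ 2 +
      (p * (3 * B + D * s) + q * (A - C * s)) ^ 2) =
      (n * (p * (A + C * s) + q * (-3 * B + D * s))) ^ 2 +
      (n * (p * (3 * B + D * s) + q * (A - C * s))) ^ 2 := by ring
  rw [f2, f0, f1]
  generalize (p * (a + c * s) + q * (-3 * b + d * s)) = X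
  generalize (p * (3 * b + d * s) + q * (a - c * s)) = Y
  generalize (a0 - c0 * s) = u1
  generalize (3 * b0 - d0 * s) = u2
  generalize (3 * b0 + d0 * s) = u3
  generalize (a0 + c0 * s) = u4
  nlinarith [sq_nonneg (X * u2 - Y * u1), sq_nonneg (X * u4 + Y * u3)]

lemma key (R : ℝ) (n a0 b0 c0 d0 : ℤ) (hn : n ≠ 0)
    (h0 : a0 ^ 2 + 9 * b0 ^ 2 - 3 * c0 ^ 2 - 3 * d0 ^ 2 = n) :
    ∃ K : ℝ, ∀ (g : G) (a b c d : ℤ), a ^ 2 + 9 * b ^ 2 - 3 * c ^ 2 - 3 * d ^ 2 = n →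
      n ∣ a - a0 → n ∣ b - b0 → n ∣ c - c0 → n ∣ d - d0 → FN g a b c d ≤ R →
      ∃ γ ∈ GamSet, hh (g * γ) ≤ K := by
  refine ⟨R * ((a0 - c0 * √3) ^ 2 + (3 * b0 - d0 * √3) ^ 2 + (3 * b0 + d0 * √3) ^ 2 +
    (a0 + c0 * √3) ^ 2) / 2, ?_⟩
  rintro g a b c d h1 ⟨β1, e1⟩ ⟨β2, e2⟩ ⟨β3, e3⟩ ⟨β4, e4⟩ hF
  set A : ℤ := 1 + β1 * a0 + 9 * β2 * b0 - 3 * β3 * c0 - 3 * β4 * d0 with hA
  set B : ℤ := -β1 * b0 + β2 * a0 - β3 * d0 + β4 * c0 with hB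
  set C : ℤ := -β1 * c0 + β3 * a0 - 3 * β2 * d0 + 3 * β4 * b0 with hC
  set D : ℤ := -β1 * d0 + β4 * a0 + 3 * β2 * c0 - 3 * β3 * b0 with hD
  have nA : n * A = a * a0 + 9 * b * b0 - 3 * c * c0 - 3 * d * d0 := by
    rw [hA]; linear_combination (-a0) * e1 - 9 * b0 * e2 + 3 * c0 * e3 + 3 * d0 * e4 - h0
  have nB : n * B = -a * b0 + b * a0 - c * d0 + d * c0 := by
    rw [hB]; linear_combination b0 * e1 - a0 * e2 + d0 * e3 - c0 * e4
  have nC : n * C = -a * c0 + c * a0 - 3 * b * d0 + 3 * d * b0 := by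
    rw [hC]; linear_combination c0 * e1 - a0 * e3 + 3 * d0 * e2 - 3 * b0 * e4
  have nD : n * D = -a * d0 + d * a0 + 3 * b * c0 - 3 * c * b0 := by
    rw [hD]; linear_combination d0 * e1 - a0 * e4 - 3 * c0 * e2 + 3 * b0 * e3
  have hnrd : A ^ 2 + 9 * B ^ 2 - 3 * C ^ 2 - 3 * D ^ 2 = 1 := by
    have h2 : n ^ 2 * (A ^ 2 + 9 * B ^ 2 - 3 * C ^ 2 - 3 * D ^ 2) = n ^ 2 * 1 := by
      have h3 : n ^ 2 * (A ^ 2 + 9 * B ^ 2 - 3 * C ^ 2 - 3 * D ^ 2) =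
          (n * A) ^ 2 + 9 * (n * B) ^ 2 - 3 * (n * C) ^ 2 - 3 * (n * D) ^ 2 := by ring
      rw [h3, nA, nB, nC, nD]
      have h4 : (a * a0 + 9 * b * b0 - 3 * c * c0 - 3 * d * d0) ^ 2 +
          9 * (-a * b0 + b * a0 - c * d0 + d * c0) ^ 2 -
          3 * (-a * c0 + c * a0 - 3 * b * d0 + 3 * d * b0) ^ 2 -
          3 * (-a * d0 + d * a0 + 3 * b * c0 - 3 * c * b0) ^ 2 =
          (a ^ 2 + 9 * b ^ 2 - 3 * c ^ 2 - 3 * d ^ 2) *
          (a0 ^ 2 + 9 * b0 ^ 2 - 3 * c0 ^ 2 - 3 * d0 ^ 2) := by ring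
      rw [h4, h1, h0]
      ring
    exact mul_left_cancel₀ (pow_ne_zero 2 hn) h2
  have hnR : (n : ℝ) ≠ 0 := by exact_mod_cast hn
  have hs := s3
  have hdet : Matrix.det !![(A : ℝ) + C * √3, 3 * B + D * √3; -3 * B + D * √3, A - C * √3] = 1 := by
    rw [Matrix.det_fin_two_of]
    have h2 : ((A : ℝ) ^ 2 + 9 * (B : ℝ) ^ 2 - 3 * (C : ℝ) ^ 2 - 3 * (D : ℝ) ^ 2) = 1 := by
      exact_mod_cast hnrd
    linear_combination h2 - ((C : ℝ) ^ 2 + (D : ℝ) ^ 2) * hs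
  let γ : G := ⟨!![(A : ℝ) + C * √3, 3 * B + D * √3; -3 * B + D * √3, A - C * √3], hdet⟩
  refine ⟨γ, ⟨A, B, C, D, hnrd, ?_, ?_, ?_, ?_⟩, ?_⟩
  · rfl
  · rfl
  · rfl
  · rfl
  · have nA' : (n : ℝ) * A = a * a0 + 9 * b * b0 - 3 * c * c0 - 3 * d * d0 := by exact_mod_cast nA
    have nB' : (n : ℝ) * B = -a * b0 + b * a0 - c * d0 + d * c0 := by exact_mod_cast nB
    have nC' : (n : ℝ) * C = -a * c0 + c * a0 - 3 * b * d0 + 3 * d * b0 := by exact_mod_cast nC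
    have nD' : (n : ℝ) * D = -a * d0 + d * a0 + 3 * b * c0 - 3 * c * b0 := by exact_mod_cast nD
    have g00 : γ.1 0 0 = A + C * √3 := rfl
    have g01 : γ.1 0 1 = 3 * B + D * √3 := rfl
    have g10 : γ.1 1 0 = -3 * B + D * √3 := rfl
    have g11 : γ.1 1 1 = A - C * √3 := rfl
    have e00 : (g * γ).1 0 0 = g.1 0 0 * (A + C * √3) + g.1 0 1 * (-3 * B + D * √3) := by
      rw [mul_entry, g00, g10]
    have e01 : (g * γ).1 0 1 = g.1 0 0 * (3 * B + D * √3) + g.1 0 1 * (A - C * √3) := by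
      rw [mul_entry, g01, g11]
    have e10 : (g * γ).1 1 0 = g.1 1 0 * (A + C * √3) + g.1 1 1 * (-3 * B + D * √3) := by
      rw [mul_entry, g00, g10]
    have e11 : (g * γ).1 1 1 = g.1 1 0 * (3 * B + D * √3) + g.1 1 1 * (A - C * √3) := by
      rw [mul_entry, g01, g11]
    rw [hh_eq, e00, e01, e10, e11]
    unfold FN at hF
    generalize g.1 0 0 = p at hF ⊢
    generalize g.1 0 1 = q at hF ⊢
    generalize g.1 1 0 = r at hF ⊢
    generalize g.1 1 1 = t at hF ⊢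
    generalize √3 = s at hF hs ⊢
    have r1 := row hs nA' nB' nC' nD' p q
    have r2 := row hs nA' nB' nC' nD' r t
    have hn1 : (1 : ℝ) ≤ (n : ℝ) ^ 2 := by
      have h2 : (1 : ℤ) ≤ n ^ 2 := by
        have h3 : 0 < n ^ 2 := by positivity
        omega
      exact_mod_cast h2
    have h5 := fin r1 r2 hF (by positivity) hn1 (by positivity) (by positivity)
    rw [add_assoc (_ + _) (_ ^ 2) (_ ^ 2)]
    exact div_le_div_of_nonneg_right h5 zero_le_two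

theorem main (h : ShortStmt) : CocompStmt := by
  classical
  obtain ⟨R, hR⟩ := h
  have hkey : ∀ n r1 r2 r3 r4 : ℤ, ∃ K : ℝ, n ≠ 0 → ∀ (g : G) (a b c d : ℤ),
      a ^ 2 + 9 * b ^ 2 - 3 * c ^ 2 - 3 * d ^ 2 = n →
      a % n = r1 → b % n = r2 → c % n = r3 → d % n = r4 → FN g a b c d ≤ R →
      ∃ γ ∈ GamSet, hh (g * γ) ≤ K := by
    intro n r1 r2 r3 r4
    by_cases hex : ∃ a0 b0 c0 d0 : ℤ, a0 ^ 2 + 9 * b0 ^ 2 - 3 * c0 ^ 2 - 3 * d0 ^ 2 = n ∧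
      a0 % n = r1 ∧ b0 % n = r2 ∧ c0 % n = r3 ∧ d0 % n = r4
    · obtain ⟨a0, b0, c0, d0, h0, h1, h2, h3, h4⟩ := hex
      by_cases hn : n = 0
      · exact ⟨0, fun h => absurd hn h⟩
      obtain ⟨K, hK⟩ := key R n a0 b0 c0 d0 hn h0
      refine ⟨K, fun _ g a b c d g0 g1 g2 g3 g4 hF => hK g a b c d g0 ?_ ?_ ?_ ?_ hF⟩
      · exact Int.ModEq.dvd (n := n) (a := a0) (b := a) (by rw [Int.ModEq, g1, h1])
      · exact Int.ModEq.dvd (n := n) (a := b0) (b := b) (by rw [Int.ModEq, g2, h2])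
      · exact Int.ModEq.dvd (n := n) (a := c0) (b := c) (by rw [Int.ModEq, g3, h3])
      · exact Int.ModEq.dvd (n := n) (a := d0) (b := d) (by rw [Int.ModEq, g4, h4])
    · refine ⟨0, fun _ g a b c d g0 g1 g2 g3 g4 hF => ?_⟩
      exact absurd ⟨a, b, c, d, g0, g1, g2, g3, g4⟩ hex
  choose K hK using hkey
  set N : ℤ := ⌈R⌉ with hN
  set S : Finset (ℤ × ℤ × ℤ × ℤ × ℤ) := Finset.Icc (-N) N ×ˢ Finset.Icc 0 N ×ˢ Finset.Icc 0 N ×ˢ
    Finset.Icc 0 N ×ˢ Finset.Icc 0 N with hS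
  obtain ⟨M, hM⟩ := (S.image fun k => K k.1 k.2.1 k.2.2.1 k.2.2.2.1 k.2.2.2.2).bddAbove
  refine ⟨M, fun g => ?_⟩
  obtain ⟨a, b, c, d, hne, hle⟩ := hR g
  have hF : FN g a b c d ≤ R := by
    have h1 := hle _ rfl
    simp only [Matrix.mul_apply, Fin.sum_univ_two, Matrix.of_apply, Matrix.cons_val', Matrix.cons_val_zero,
      Matrix.cons_val_one, Matrix.empty_val', Matrix.cons_val_fin_one] at h1
    exact h1
  set n : ℤ := a ^ 2 + 9 * b ^ 2 - 3 * c ^ 2 - 3 * d ^ 2 with hn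
  have hn0 : n ≠ 0 := nrd_ne hne
  have hnR : 2 * |(n : ℝ)| ≤ R := (nrd_le g a b c d).trans hF
  have hnN : |n| ≤ N := by
    have h1 : |(n : ℝ)| ≤ R := by
      have := abs_nonneg (n : ℝ)
      linarith
    have h2 : ((|n| : ℤ) : ℝ) ≤ (N : ℝ) := by
      push_cast
      exact h1.trans (Int.le_ceil R)
    exact_mod_cast h2
  have hres : ∀ z : ℤ, 0 ≤ z % n ∧ z % n ≤ N := fun z =>
    ⟨Int.emod_nonneg z hn0, by have := Int.emod_lt_abs z hn0; omega⟩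
  obtain ⟨γ, hγ, hle2⟩ := hK n _ _ _ _ hn0 g a b c d hn.symm rfl rfl rfl rfl hF
  refine ⟨γ, hγ, hle2.trans (hM ?_)⟩
  rw [Finset.coe_image]
  refine ⟨(n, a % n, b % n, c % n, d % n), ?_, rfl⟩
  rw [Finset.mem_coe, hS]
  simp only [Finset.mem_product, Finset.mem_Icc]
  exact ⟨⟨(abs_le.1 hnN).1, (abs_le.1 hnN).2⟩, hres a, hres b, hres c, hres d⟩

end Pool.Agent.W337.BA.CC
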